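import Pool.Agent.Y561.RF.Iter4

set_option autoImplicit false

/-!
A `Pi^1_1`-definable extension of `Sigma^1_1-AC_0` that proves its own `Pi^1_1`-soundness.

The language of second-order arithmetic, its structures, provability, `ACA_0`, the Goedel numbering,
arithmetizations of the metamathematics and the reflection sentence are in
`Pool/Agent/H986R3/SOADefs.lean`, `Sigma^1_1-AC_0` and `Pi^1_1` definitions of theories in
`Pool/Agent/Y561/RF/Defs.lean`.

Idea of the proof. Let `base` be a set of closed axioms, with an arithmetical definition, for
`Sigma^1_1-AC_0`. If `α` is an arithmetical definition of a set of true sentences, then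
`α(x) ∧ ∀ φ ∈ Pi^1_1 (Pr_α(φ) → True(φ))` is a `Pi^1_1` formula: the provability predicate of `α` is
arithmetical. It defines the same set, and reflection for it is provable in the base theory, except
for proofs without axioms, for which one true sentence `rho` is added (this is `simple` in
`Simple.lean`). To have in addition that the theory proves of each of its axioms that it satisfies
the definition, the theory is built in stages: stage `0` consists of `base`, `rho` and a true
sentence `kap` about finite sets of axioms and the tables of the stages, stage `n + 1` of the
sentences `τ(φ)` for `φ` in stage `n`. Here `τ(x)` says that `x` has a stage and that the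
axioms of at most this stage are `Pi^1_1`-sound. It is a fixed point, and `Pi^1_1` because the
stages are given by a table that is unique. Given a proof `p` of a `Pi^1_1` sentence `φ` from
axioms that satisfy `τ`, an axiom `a` of maximal stage among those used in `p` satisfies `τ(a)`, and
this says that `φ` is true.
-/

namespace Pool.Agent.Results.MP_51f008_lc.ProvesOwnSoundness

open Pool.Agent.H986R3.SOA Pool.Agent.Y561.RF

/-- For every arithmetization of the metamathematics of `L_2` in which only finitely many axioms are
used in a proof, there are a theory `T` and a formula `τ` with the following properties. `T` is a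
set of sentences that are true in the standard model, and proves all axioms of `Sigma^1_1-AC_0`; `T`
is `Pi^1_1`-sound; `τ` is a `Pi^1_1` formula that defines `T`; `T` proves the sentence
`∀ φ ∈ Pi^1_1 (Pr_τ(φ) → True(φ))`; and `T` proves `τ(n)` for the Goedel number `n` of each axiom
of `T`. -/
theorem result (𝒜 : Arithmetization) (hfin : ∀ p : ℕ, {a : ℕ | SatN a p 0 𝒜.axIn}.Finite) :
    ∃ (T : Set Fm) (τ : Fm), ExtendsSigmaAC0 T ∧ (∀ φ ∈ T, std.Holds φ) ∧ Pi11Sound T ∧
      Pi11Defines τ T ∧ Proves T (𝒜.reflection τ) ∧ ∀ φ ∈ T, Proves T (instA τ φ.code) := by
  obtain ⟨T, τ, h1, h2, h3, h4, h5⟩ := iterated 𝒜 hfin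
  exact ⟨T, τ, h1, h2, fun φ _ h => h std h2, h3, h4, fun φ hφ M hM => hM _ (h5 φ hφ)⟩

end Pool.Agent.Results.MP_51f008_lc.ProvesOwnSoundness
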